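import Mathlib

/-!
# Expansion and asymptotic dimension of classes of finite graphs

The definitions of the problem file, for classes of graphs on the vertex sets `{0, …, N - 1}`.
-/

open scoped ENNReal

namespace Pool.Agent.CoarseExp

/-- A class of finite graphs: any set of graphs, each on a vertex set `{0, …, N - 1}`. -/
abbrev GraphClass : Type := Set (Σ N : ℕ, SimpleGraph (Fin N))

/-- `H` arises from a subgraph of `G` by contracting pairwise vertex-disjoint connected subgraphs
of radius at most `r`: each vertex `i` of `H` is a subgraph `T i` of `G` with a centre from which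
every vertex of `T i` has distance at most `r` inside `T i`, different `T i` are disjoint, and
every edge of `H` comes from an edge of `G` between the two subgraphs. -/
def IsShallowMinor {V W : Type} (G : SimpleGraph V) (r : ℕ) (H : SimpleGraph W) : Prop :=
  ∃ T : W → G.Subgraph,
    (∀ i j, i ≠ j → Disjoint (T i).verts (T j).verts) ∧
    (∀ i, ∃ c : (T i).verts, ∀ v : (T i).verts, (T i).coe.edist c v ≤ (r : ℕ∞)) ∧
    ∀ i j, H.Adj i j → ∃ x ∈ (T i).verts, ∃ y ∈ (T j).verts, G.Adj x y

/-- The class `𝒢` has expansion at most `f`: for every `r`, every graph obtained from a graph of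
`𝒢` as in `IsShallowMinor` has average degree at most `f r`. -/
def ExpansionAtMost (𝒢 : GraphClass) (f : ℕ → ℝ) : Prop :=
  ∀ G ∈ 𝒢, ∀ r m : ℕ, ∀ H : SimpleGraph (Fin m), IsShallowMinor G.2 r H →
    2 * (Nat.card H.edgeSet : ℝ) ≤ f r * (m : ℝ)

/-- `V(G)` is covered by `n + 1` families of sets, each `r`-disjoint (points of different members
have distance larger than `r`) and `D`-bounded (points of one member have distance at most `D`);
distances between different components are `∞`. -/
def Covered {V : Type} (G : SimpleGraph V) (n : ℕ) (r D : ℝ) : Prop :=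
  ∃ U : Fin (n + 1) → Set (Set V),
    (∀ v : V, ∃ i, ∃ A ∈ U i, v ∈ A) ∧
    (∀ i, ∀ A ∈ U i, ∀ B ∈ U i, A ≠ B → ∀ x ∈ A, ∀ y ∈ B,
      ENNReal.ofReal r < ((G.edist x y : ℕ∞) : ℝ≥0∞)) ∧
    ∀ i, ∀ A ∈ U i, ∀ x ∈ A, ∀ y ∈ A, ((G.edist x y : ℕ∞) : ℝ≥0∞) ≤ ENNReal.ofReal D

/-- The class `𝒢` has asymptotic dimension at most `n`: one function `D` from the positive reals
to the positive reals such that every graph of `𝒢` is covered as above, for every real `r > 0`
with the bound `D r`. -/
def AsdimAtMost (𝒢 : GraphClass) (n : ℕ) : Prop :=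
  ∃ D : ℝ → ℝ, (∀ r, 0 < r → 0 < D r) ∧ ∀ G ∈ 𝒢, ∀ r : ℝ, 0 < r → Covered G.2 n r (D r)

end Pool.Agent.CoarseExp
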