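import Pool.Agent.Lib_MP_75b583_co.Final
import Pool.Agent.Lib_MP_75b583_ins.Defs

/-!
# Almost linear expansion and infinite asymptotic dimension
-/

open SimpleGraph
open scoped ENNReal

namespace Pool.Agent.CoarseExp

open Pool.Agent.Lib_MP_75b583_co

/-- The graphs of `main_graph` with a free subdivision length. -/
theorem main_graph_gen (n l : ℕ) (hl : 1 ≤ l) (D : ℕ) : ∃ (N : ℕ) (G : SimpleGraph (Fin N))
    (rk : Fin N → ℕ), Function.Injective rk ∧
    (∀ d v, {w | WR G rk d v w}.ncard ≤ d + 1 + 2 * gb n (d / (l + 1))) ∧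
    ∀ col : Fin N → Fin n, ∃ u v,
      Relation.ReflTransGen (fun x y => col x = col y ∧ G.edist x y ≤ ((l + 1 : ℕ) : ℕ∞)) u v ∧
      ¬ G.edist u v < (D : ℕ∞) := by
  obtain ⟨V, hV1, hV2, G, rk, z, F, hinj, hWR, hz, hF⟩ := exists_graph n D
  have hg : ∀ d v, {w | WR G rk d v w}.ncard ≤ gb n d := by
    intro d v
    unfold gb
    split_ifs with h0
    · subst h0
      have h1 : {w | WR G rk 0 v w} ⊆ {v} := fun w hw => WR_zero hw
      have h2 := Set.ncard_le_ncard h1 (Set.finite_singleton v)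
      rwa [Set.ncard_singleton] at h2
    · exact hWR d v
  obtain ⟨V', hV', G', rk', ι, hinj', hWR', hι1, hι2⟩ :=
    subdivide G rk hinj l hl (gb n) hg
  let f : V' ≃ Fin (Fintype.card V') := Fintype.equivFin V'
  let G'' : SimpleGraph (Fin (Fintype.card V')) := G'.comap f.symm
  let hom1 : G'' →g G' := ⟨f.symm, fun {a b} hab => hab⟩
  let hom2 : G' →g G'' := ⟨f, fun {a b} hab => by
    show G'.Adj (f.symm (f a)) (f.symm (f b))
    rwa [Equiv.symm_apply_apply, Equiv.symm_apply_apply]⟩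
  refine ⟨Fintype.card V', G'', fun x => rk' (f.symm x), ?_, ?_, ?_⟩
  · exact hinj'.comp f.symm.injective
  · intro d v
    have h1 : {w | WR G'' (fun x => rk' (f.symm x)) d v w}.ncard ≤
        {w | WR G' rk' d (f.symm v) w}.ncard := by
      refine Set.ncard_le_ncard_of_injOn f.symm ?_ f.symm.injective.injOn (Set.toFinite _)
      rintro w ⟨p, hp1, hp2⟩
      refine ⟨p.map hom1, ?_, ?_⟩
      · rw [Walk.length_map]; exact hp1
      · intro x hx
        rw [Walk.support_map, List.mem_map] at hx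
        obtain ⟨y, hy, rfl⟩ := hx
        exact hp2 y hy
    exact h1.trans (hWR' d _)
  · intro col
    by_contra hcon
    push Not at hcon
    have hsymm : ∀ u v, Relation.ReflTransGen
        (fun x y => col x = col y ∧ G''.edist x y ≤ ((l + 1 : ℕ) : ℕ∞)) u v →
        Relation.ReflTransGen
        (fun x y => col x = col y ∧ G''.edist x y ≤ ((l + 1 : ℕ) : ℕ∞)) v u := by
      intro u v huv
      induction huv with
      | refl => exact Relation.ReflTransGen.refl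
      | tail _ h ih =>
        refine Relation.ReflTransGen.head ⟨h.1.symm, ?_⟩ ih
        rw [SimpleGraph.edist_comm]
        exact h.2
    refine hz.no_colouring (D := D) hF
      (fun u v => Relation.ReflTransGen
        (fun x y => col x = col y ∧ G''.edist x y ≤ ((l + 1 : ℕ) : ℕ∞))
        (f (ι u)) (f (ι v))) ?_ ?_ (fun v => col (f (ι v))) ?_
    · exact ⟨fun _ => Relation.ReflTransGen.refl, fun huv => hsymm _ _ huv,
        fun h1 h2 => h1.trans h2⟩
    · intro u v huv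
      have h1 := hcon _ _ huv
      have h2 := edist_hom_le hom1 (f (ι u)) (f (ι v))
      have h3 : hom1 (f (ι u)) = ι u := f.symm_apply_apply _
      have h4 : hom1 (f (ι v)) = ι v := f.symm_apply_apply _
      rw [h3, h4] at h2
      exact ((hι2 u v).trans h2).trans_lt h1
    · intro u v huv hcol
      refine Relation.ReflTransGen.single ⟨hcol, ?_⟩
      exact (edist_hom_le hom2 (ι u) (ι v)).trans (hι1 u v huv)

lemma log_root {n k : ℕ} (hn : 1 ≤ n) (hk : 1 ≤ k) {x : ℕ} (hx : 1 ≤ x) :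
    ((2 * Nat.log 2 x + 5 : ℕ) : ℝ) ^ n ≤
      ((2 * (n * k) + 5 : ℕ) : ℝ) ^ n * (x : ℝ) ^ ((1 : ℝ) / k) := by
  have h1 := polylog (n := n * k) (Nat.mul_pos hn hk) hx
  have h2 : ((2 * Nat.log 2 x + 5 : ℕ) : ℝ) ^ (n * k) ≤
      ((2 * (n * k) + 5 : ℕ) : ℝ) ^ (n * k) * (x : ℝ) := by exact_mod_cast h1
  have hk0 : (k : ℝ) ≠ 0 := by
    have : (0 : ℝ) < k := by exact_mod_cast hk
    exact this.ne'
  have hx0 : (0 : ℝ) ≤ x := Nat.cast_nonneg x
  refine le_of_pow_le_pow_left₀ (n := k) (by omega) (by positivity) ?_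
  rw [← pow_mul, mul_pow, ← pow_mul, ← Real.rpow_natCast ((x : ℝ) ^ ((1 : ℝ) / k)) k,
    ← Real.rpow_mul hx0, one_div, inv_mul_cancel₀ hk0, Real.rpow_one]
  exact h2

/-- The subdivision length. -/
def sl (n : ℕ) : ℕ := 2 * (2 * (n * n) + 5) ^ n

/-- The constant for the exponent `1 + 1 / k`. -/
noncomputable def ck (k : ℕ) : ℝ := 1 + 2 * ((2 * (k * k) + 5 : ℕ) : ℝ) ^ k

lemma ck_ge (k : ℕ) : 3 ≤ ck k := by
  unfold ck
  have h1 : (1 : ℝ) ≤ ((2 * (k * k) + 5 : ℕ) : ℝ) ^ k := by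
    refine one_le_pow₀ ?_
    have : 1 ≤ 2 * (k * k) + 5 := by omega
    exact_mod_cast this
  linarith

lemma wr_bound {n k : ℕ} (hn : 1 ≤ n) (hk : 1 ≤ k) (d : ℕ) :
    ((d + 1 + 2 * gb n (d / (sl n + 1)) : ℕ) : ℝ) ≤ ck k * ((d : ℝ) + 1) ^ (1 + (1 : ℝ) / k) := by
  set q := d / (sl n + 1) with hq
  have hX1 : (1 : ℝ) ≤ (d : ℝ) + 1 := by
    have : (0 : ℝ) ≤ d := Nat.cast_nonneg d
    linarith
  have hX0 : (0 : ℝ) < (d : ℝ) + 1 := by linarith
  have hk0 : (0 : ℝ) < k := by exact_mod_cast hk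
  have hsplit : ((d : ℝ) + 1) ^ (1 + (1 : ℝ) / k) = ((d : ℝ) + 1) * ((d : ℝ) + 1) ^ ((1 : ℝ) / k) := by
    rw [Real.rpow_add hX0, Real.rpow_one]
  have hone : (1 : ℝ) ≤ ((d : ℝ) + 1) ^ ((1 : ℝ) / k) :=
    Real.one_le_rpow hX1 (by positivity)
  have hXle : (d : ℝ) + 1 ≤ ((d : ℝ) + 1) ^ (1 + (1 : ℝ) / k) := by
    rw [hsplit]
    nlinarith
  have hY0 : (0 : ℝ) < ((d : ℝ) + 1) ^ (1 + (1 : ℝ) / k) := lt_of_lt_of_le hX0 hXle
  have hqd : q ≤ d := Nat.div_le_self d _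
  have hqd' : (q : ℝ) + 1 ≤ (d : ℝ) + 1 := by
    have : (q : ℝ) ≤ d := by exact_mod_cast hqd
    linarith
  by_cases h0 : q = 0
  · have hgb : gb n q = 1 := by simp [gb, h0]
    rw [hgb]
    have h3 := ck_ge k
    push_cast
    nlinarith
  · have hq1 : 1 ≤ q := Nat.one_le_iff_ne_zero.2 h0
    have hgb : ((gb n q : ℕ) : ℝ) = ((q : ℝ) + 1) * ((2 * Nat.log 2 (q + 1) + 5 : ℕ) : ℝ) ^ n := by
      unfold gb
      rw [if_neg h0]
      push_cast
      ring
    have hq0 : (0 : ℝ) < (q : ℝ) + 1 := by positivity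
    rcases le_or_gt n k with hnk | hnk
    · -- small `n`
      have h1 : ((2 * Nat.log 2 (q + 1) + 5 : ℕ) : ℝ) ^ n ≤
          ((2 * Nat.log 2 (q + 1) + 5 : ℕ) : ℝ) ^ k := by
        refine pow_le_pow_right₀ ?_ hnk
        have : 1 ≤ 2 * Nat.log 2 (q + 1) + 5 := by omega
        exact_mod_cast this
      have h2 := log_root (n := k) (k := k) hk hk (x := q + 1) (by omega)
      have h3 : ((q + 1 : ℕ) : ℝ) ^ ((1 : ℝ) / k) ≤ ((d : ℝ) + 1) ^ ((1 : ℝ) / k) := by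
        refine Real.rpow_le_rpow (by positivity) ?_ (by positivity)
        push_cast
        exact hqd'
      have hB : (0 : ℝ) ≤ ((2 * (k * k) + 5 : ℕ) : ℝ) ^ k := by positivity
      have h4 : ((gb n q : ℕ) : ℝ) ≤
          ((2 * (k * k) + 5 : ℕ) : ℝ) ^ k * ((d : ℝ) + 1) ^ (1 + (1 : ℝ) / k) := by
        rw [hgb, hsplit]
        calc ((q : ℝ) + 1) * ((2 * Nat.log 2 (q + 1) + 5 : ℕ) : ℝ) ^ n
            ≤ ((d : ℝ) + 1) * (((2 * (k * k) + 5 : ℕ) : ℝ) ^ k * ((d : ℝ) + 1) ^ ((1 : ℝ) / k)) := by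
              refine mul_le_mul hqd' ?_ (by positivity) hX0.le
              exact (h1.trans h2).trans (mul_le_mul_of_nonneg_left h3 hB)
          _ = _ := by ring
      have h5 : ((d + 1 + 2 * gb n q : ℕ) : ℝ) = (d : ℝ) + 1 + 2 * ((gb n q : ℕ) : ℝ) := by
        push_cast; ring
      rw [h5]
      unfold ck
      nlinarith
    · -- large `n`
      have h2 := log_root (n := n) (k := n) hn hn (x := q + 1) (by omega)
      have hn0 : (0 : ℝ) < n := by exact_mod_cast hn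
      have h3 : ((q + 1 : ℕ) : ℝ) ^ ((1 : ℝ) / n) ≤ ((d : ℝ) + 1) ^ ((1 : ℝ) / k) := by
        have ha : ((q + 1 : ℕ) : ℝ) ^ ((1 : ℝ) / n) ≤ ((d : ℝ) + 1) ^ ((1 : ℝ) / n) := by
          refine Real.rpow_le_rpow (by positivity) ?_ (by positivity)
          push_cast
          exact hqd'
        refine ha.trans (Real.rpow_le_rpow_of_exponent_le hX1 ?_)
        have : (k : ℝ) ≤ n := by exact_mod_cast hnk.le
        exact one_div_le_one_div_of_le hk0 this
      have hB1 : 1 ≤ (2 * (n * n) + 5) ^ n := Nat.one_le_pow _ _ (by omega)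
      have h6 : (q + 1) * (2 * (n * n) + 5) ^ n ≤ d + 1 := by
        have h7 : q * (sl n + 1) ≤ d := Nat.div_mul_le_self d _
        unfold sl at h7
        set B := (2 * (n * n) + 5) ^ n with hB
        nlinarith
      have h6' : ((q : ℝ) + 1) * ((2 * (n * n) + 5 : ℕ) : ℝ) ^ n ≤ (d : ℝ) + 1 := by
        exact_mod_cast h6
      have h4 : ((gb n q : ℕ) : ℝ) ≤ ((d : ℝ) + 1) ^ (1 + (1 : ℝ) / k) := by
        rw [hgb, hsplit]
        calc ((q : ℝ) + 1) * ((2 * Nat.log 2 (q + 1) + 5 : ℕ) : ℝ) ^ n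
            ≤ ((q : ℝ) + 1) * (((2 * (n * n) + 5 : ℕ) : ℝ) ^ n *
                ((q + 1 : ℕ) : ℝ) ^ ((1 : ℝ) / n)) :=
              mul_le_mul_of_nonneg_left h2 hq0.le
          _ = (((q : ℝ) + 1) * ((2 * (n * n) + 5 : ℕ) : ℝ) ^ n) *
                ((q + 1 : ℕ) : ℝ) ^ ((1 : ℝ) / n) := by ring
          _ ≤ ((d : ℝ) + 1) * ((d : ℝ) + 1) ^ ((1 : ℝ) / k) :=
              mul_le_mul h6' h3 (by positivity) hX0.le
      have h5 : ((d + 1 + 2 * gb n q : ℕ) : ℝ) = (d : ℝ) + 1 + 2 * ((gb n q : ℕ) : ℝ) := by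
        push_cast; ring
      have h8 := ck_ge k
      rw [h5]
      nlinarith

/-- The class of graphs with almost linear weak colouring numbers. -/
def witness : GraphClass :=
  {G | ∃ rk : Fin G.1 → ℕ, Function.Injective rk ∧
    ∀ k : ℕ, 1 ≤ k → ∀ (d : ℕ) (v : Fin G.1),
      (({w | WR G.2 rk d v w}.ncard : ℕ) : ℝ) ≤ ck k * ((d : ℝ) + 1) ^ (1 + (1 : ℝ) / k)}

lemma walk_out {V : Type} {G : SimpleGraph V} (S : G.Subgraph) {a b : S.verts}
    (p : S.coe.Walk a b) : ∃ w : G.Walk (a : V) (b : V), w.length = p.length ∧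
      ∀ x ∈ w.support, x ∈ S.verts := by
  induction p with
  | nil => exact ⟨Walk.nil, rfl, fun x hx => by
      rw [Walk.support_nil, List.mem_singleton] at hx
      rw [hx]
      exact Subtype.coe_prop _⟩
  | @cons a b c hab p ih =>
    obtain ⟨w, hw1, hw2⟩ := ih
    refine ⟨Walk.cons (S.adj_sub hab) w, ?_, ?_⟩
    · rw [Walk.length_cons, Walk.length_cons, hw1]
    · intro x hx
      rw [Walk.support_cons, List.mem_cons] at hx
      rcases hx with rfl | hx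
      · exact a.2
      · exact hw2 x hx

lemma witness_minor {G : Σ N : ℕ, SimpleGraph (Fin N)} (hG : G ∈ witness) {k : ℕ} (hk : 1 ≤ k)
    {r m : ℕ} {H : SimpleGraph (Fin m)} (hH : IsShallowMinor G.2 r H) :
    2 * (Nat.card H.edgeSet : ℝ) ≤
      (32 * ck k) * ((r : ℝ) + 1) ^ (1 + (1 : ℝ) / k) * (m : ℝ) := by
  obtain ⟨rk, hinj, hb⟩ := hG
  obtain ⟨T, hdisj, hrad, hadj⟩ := hH
  choose c hc using hrad
  set K : ℕ := ⌊ck k * (((4 * r + 1 : ℕ) : ℝ) + 1) ^ (1 + (1 : ℝ) / k)⌋₊ with hK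
  have hck := ck_ge k
  have hk0 : (0 : ℝ) < k := by exact_mod_cast hk
  have h1 : ∀ v, {w | WR G.2 rk (4 * r + 1) v w}.ncard ≤ K := fun v =>
    Nat.le_floor (hb k hk (4 * r + 1) v)
  have h2 := minor_density G.2 rk hinj K r h1 m H (fun i => (T i).verts)
    (fun i => (c i : Fin G.1)) hdisj (fun i => (c i).2) ?_ hadj
  · have hr0 : (0 : ℝ) ≤ r := Nat.cast_nonneg r
    have h3 : (K : ℝ) ≤ ck k * (((4 * r + 1 : ℕ) : ℝ) + 1) ^ (1 + (1 : ℝ) / k) :=
      Nat.floor_le (by positivity)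
    have h4 : (((4 * r + 1 : ℕ) : ℝ) + 1) ^ (1 + (1 : ℝ) / k) ≤
        16 * ((r : ℝ) + 1) ^ (1 + (1 : ℝ) / k) := by
      have h5 : (((4 * r + 1 : ℕ) : ℝ) + 1) ^ (1 + (1 : ℝ) / k) ≤
          (4 * ((r : ℝ) + 1)) ^ (1 + (1 : ℝ) / k) := by
        refine Real.rpow_le_rpow (by positivity) ?_ (by positivity)
        push_cast
        linarith
      rw [Real.mul_rpow (by norm_num) (by positivity)] at h5
      have h6 : (4 : ℝ) ^ (1 + (1 : ℝ) / k) ≤ 16 := by
        have h7 : (1 : ℝ) + (1 : ℝ) / k ≤ 2 := by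
          have h8 : (1 : ℝ) / k ≤ 1 := by
            rw [div_le_one hk0]
            exact_mod_cast hk
          linarith
        calc (4 : ℝ) ^ (1 + (1 : ℝ) / k) ≤ (4 : ℝ) ^ (2 : ℝ) :=
              Real.rpow_le_rpow_of_exponent_le (by norm_num) h7
          _ = 16 := by
              rw [show (2 : ℝ) = ((2 : ℕ) : ℝ) by norm_num, Real.rpow_natCast]
              norm_num
      have h9 : (0 : ℝ) ≤ ((r : ℝ) + 1) ^ (1 + (1 : ℝ) / k) := by positivity
      nlinarith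
    have h10 : (2 * (Nat.card H.edgeSet : ℝ)) ≤ 2 * (K : ℝ) * m := by exact_mod_cast h2
    have hm0 : (0 : ℝ) ≤ m := Nat.cast_nonneg m
    have h11 : 2 * (K : ℝ) ≤ (32 * ck k) * ((r : ℝ) + 1) ^ (1 + (1 : ℝ) / k) := by
      have h12 : ck k * (((4 * r + 1 : ℕ) : ℝ) + 1) ^ (1 + (1 : ℝ) / k) ≤
          ck k * (16 * ((r : ℝ) + 1) ^ (1 + (1 : ℝ) / k)) :=
        mul_le_mul_of_nonneg_left h4 (by linarith)
      nlinarith
    exact h10.trans (mul_le_mul_of_nonneg_right h11 hm0)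
  · intro i v hv
    have h3 := hc i ⟨v, hv⟩
    have h4 : (T i).coe.Reachable (c i) ⟨v, hv⟩ := by
      by_contra hcon
      rw [SimpleGraph.edist_eq_top_of_not_reachable hcon] at h3
      exact absurd h3 (by simp)
    obtain ⟨p, hp⟩ := h4.exists_walk_length_eq_edist
    obtain ⟨w, hw1, hw2⟩ := walk_out (T i) p
    refine ⟨w, ?_, hw2⟩
    rw [hw1]
    rw [← hp] at h3
    exact_mod_cast h3

lemma witness_expansion {ε : ℝ} (hε : 0 < ε) :
    ∃ C : ℝ, ExpansionAtMost witness fun r => C * ((r : ℝ) + 1) ^ (1 + ε) := by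
  obtain ⟨k, hk⟩ := exists_nat_gt (1 / ε)
  have hk0 : (0 : ℝ) < k := lt_trans (by positivity) hk
  have hk1 : 1 ≤ k := by
    have : 0 < k := by exact_mod_cast hk0
    exact this
  refine ⟨32 * ck k, fun G hG r m H hH => (witness_minor hG hk1 hH).trans ?_⟩
  have hck := ck_ge k
  have h1 : ((r : ℝ) + 1) ^ (1 + (1 : ℝ) / k) ≤ ((r : ℝ) + 1) ^ (1 + ε) := by
    refine Real.rpow_le_rpow_of_exponent_le ?_ ?_
    · have : (0 : ℝ) ≤ r := Nat.cast_nonneg r
      linarith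
    · have h2 : (1 : ℝ) / k ≤ ε := by
        rw [div_le_iff₀ hk0]
        rw [div_lt_iff₀ hε] at hk
        nlinarith
      linarith
  refine mul_le_mul_of_nonneg_right ?_ (Nat.cast_nonneg m)
  exact mul_le_mul_of_nonneg_left h1 (by linarith)

lemma witness_not_covered (n : ℕ) :
    ∃ r : ℝ, 0 < r ∧ ∀ D : ℝ, ∃ G ∈ witness, ¬ Covered G.2 n r D := by
  refine ⟨((sl (n + 1) + 1 : ℕ) : ℝ), by positivity, fun D => ?_⟩
  obtain ⟨D', hD'⟩ := exists_nat_gt D
  have hsl : 1 ≤ sl (n + 1) := by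
    unfold sl
    have : 1 ≤ (2 * ((n + 1) * (n + 1)) + 5) ^ (n + 1) := Nat.one_le_pow _ _ (by omega)
    omega
  obtain ⟨N, G, rk, hinj, hWR, hcol⟩ := main_graph_gen (n + 1) (sl (n + 1)) hsl (D' + 1)
  refine ⟨⟨N, G⟩, ⟨rk, hinj, fun k hk d v => ?_⟩, ?_⟩
  · have h1 : (({w | WR G rk d v w}.ncard : ℕ) : ℝ) ≤
        ((d + 1 + 2 * gb (n + 1) (d / (sl (n + 1) + 1)) : ℕ) : ℝ) := by
      exact_mod_cast hWR d v
    exact h1.trans (wr_bound (by omega) hk d)
  · rintro ⟨U, hU1, hU2, hU3⟩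
    choose col hc using hU1
    choose A hA hvA using hc
    obtain ⟨u, v, huv, hD⟩ := hcol col
    have key : ∀ v, Relation.ReflTransGen
        (fun x y => col x = col y ∧ G.edist x y ≤ ((sl (n + 1) + 1 : ℕ) : ℕ∞)) u v →
        col u = col v ∧ A u = A v := by
      intro v huv
      induction huv with
      | refl => exact ⟨rfl, rfl⟩
      | @tail x y _ h ih =>
        refine ⟨ih.1.trans h.1, ih.2.trans ?_⟩
        by_contra hne
        have hAy : A y ∈ U (col x) := by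
          rw [h.1]
          exact hA y
        have h1 := hU2 (col x) (A x) (hA x) (A y) hAy hne x (hvA x) y (hvA y)
        refine absurd h1 (not_lt.2 ?_)
        rw [ENNReal.ofReal_natCast]
        exact_mod_cast h.2
    have h2 := key v huv
    apply hD
    have h3 := hU3 (col u) (A u) (hA u) u (hvA u) v (by rw [h2.2]; exact hvA v)
    have h4 : ((G.edist u v : ℕ∞) : ℝ≥0∞) ≤ ((D' : ℕ) : ℝ≥0∞) := by
      refine h3.trans ?_
      rw [← ENNReal.ofReal_natCast]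
      exact ENNReal.ofReal_le_ofReal hD'.le
    have h5 : G.edist u v ≤ (D' : ℕ∞) := by exact_mod_cast h4
    refine lt_of_le_of_lt h5 ?_
    exact_mod_cast Nat.lt_succ_self D'

lemma not_asdim_of {𝒢 : GraphClass} {n : ℕ}
    (h : ∃ r : ℝ, 0 < r ∧ ∀ D : ℝ, ∃ G ∈ 𝒢, ¬ Covered G.2 n r D) : ¬ AsdimAtMost 𝒢 n := by
  rintro ⟨D, -, hD⟩
  obtain ⟨r, hr, hr2⟩ := h
  obtain ⟨G, hG, hG2⟩ := hr2 (D r)
  exact hG2 (hD G hG r hr)

end Pool.Agent.CoarseExp
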